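import Mathlib

/-! # HK.Poi : Poisson summation in several variables

For a continuous function `g` on `ℝ^ι` with locally uniformly summable translates and summable
Fourier transform at the integer points: `∑ g (x + m) = ∑ ĝ(k) exp (2 π i k·x)`. -/

namespace H29.HK

open MeasureTheory Complex Real Set Topology Filter TopologicalSpace

set_option linter.unusedSectionVars false

variable {ι : Type*} [Fintype ι]

/-- the character `exp (2 π i k·x)` -/
noncomputable def chr (k : ι → ℤ) (x : ι → ℝ) : ℂ :=
  cexp (2 * π * I * ∑ i, (k i : ℂ) * (x i : ℂ))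

theorem chr_norm (k : ι → ℤ) (x : ι → ℝ) : ‖chr k x‖ = 1 := by
  unfold chr
  have : 2 * π * I * ∑ i, (k i : ℂ) * (x i : ℂ) = ((2 * π * ∑ i, (k i : ℝ) * x i : ℝ) : ℂ) * I := by
    push_cast
    ring
  rw [this, norm_exp_ofReal_mul_I]

theorem chr_continuous (k : ι → ℤ) : Continuous (chr k) := by
  unfold chr
  fun_prop

theorem chr_add (k : ι → ℤ) (x y : ι → ℝ) : chr k (x + y) = chr k x * chr k y := by
  unfold chr
  rw [← Complex.exp_add]
  congr 1
  simp only [Pi.add_apply]
  push_cast
  simp only [mul_add, Finset.sum_add_distrib]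

theorem chr_int (k m : ι → ℤ) : chr k (fun i => (m i : ℝ)) = 1 := by
  unfold chr
  have : 2 * π * I * ∑ i, (k i : ℂ) * (((m i : ℝ) : ℂ)) = ((∑ i, k i * m i : ℤ) : ℂ) * (2 * π * I) := by
    push_cast
    ring
  rw [this, Complex.exp_int_mul_two_pi_mul_I]

theorem chr_add_int (k m : ι → ℤ) (x : ι → ℝ) : chr k (x + fun i => (m i : ℝ)) = chr k x := by
  rw [chr_add, chr_int, mul_one]

theorem mFourier_eq_chr (k : ι → ℤ) (x : ι → ℝ) :
    UnitAddTorus.mFourier k (fun i => (x i : UnitAddCircle)) = chr k x := by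
  unfold chr UnitAddTorus.mFourier
  simp only [ContinuousMap.coe_mk, fourier_coe_apply, ← Complex.exp_sum]
  congr 1
  rw [Finset.mul_sum]
  refine Finset.sum_congr rfl fun i _ => ?_
  push_cast
  ring

/-- the quotient map `ℝ^ι → (ℝ/ℤ)^ι` -/
def tor (ι : Type*) : C(ι → ℝ, UnitAddTorus ι) :=
  ⟨fun x i => (x i : UnitAddCircle), continuous_pi fun i =>
    (AddCircle.continuous_mk' 1).comp (continuous_apply i)⟩

theorem tor_isQuotientMap : IsQuotientMap (tor ι) := by
  have hopen : IsOpenMap (tor ι) := by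
    exact IsOpenMap.piMap (f := fun (_ : ι) (x : ℝ) => (x : UnitAddCircle))
      (fun _ => QuotientAddGroup.isOpenMap_coe)
      (Eventually.of_forall fun _ => QuotientAddGroup.mk_surjective)
  refine hopen.isQuotientMap (tor ι).continuous ?_
  intro y
  choose f hf using fun i => QuotientAddGroup.mk_surjective (y i)
  exact ⟨f, funext hf⟩

theorem tor_eq_iff (x y : ι → ℝ) : tor ι x = tor ι y ↔ ∃ m : ι → ℤ, y = x + fun i => (m i : ℝ) := by
  constructor
  · intro h
    have h1 : ∀ i, ∃ m : ℤ, y i = x i + m := by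
      intro i
      have h2 : (x i : UnitAddCircle) = (y i : UnitAddCircle) := congrFun h i
      rw [QuotientAddGroup.eq, AddSubgroup.mem_zmultiples_iff] at h2
      obtain ⟨m, hm⟩ := h2
      refine ⟨m, ?_⟩
      simp at hm
      linarith
    choose m hm using h1
    exact ⟨m, funext hm⟩
  · rintro ⟨m, rfl⟩
    funext i
    show (x i : UnitAddCircle) = ((x i + (m i : ℝ) : ℝ) : UnitAddCircle)
    rw [QuotientAddGroup.mk_add]
    have : (((m i : ℝ)) : UnitAddCircle) = 0 := by
      rw [QuotientAddGroup.eq_zero_iff, AddSubgroup.mem_zmultiples_iff]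
      exact ⟨m i, by simp⟩
    rw [this, add_zero]

/-- translation by an integer vector -/
def tr (m : ι → ℤ) : C(ι → ℝ, ι → ℝ) := ContinuousMap.addRight (fun i => (m i : ℝ))

theorem tr_apply (m : ι → ℤ) (x : ι → ℝ) : tr m x = x + fun i => (m i : ℝ) := rfl

/-- the half open unit cube with corner `m` -/
def cub (m : ι → ℤ) : Set (ι → ℝ) := {x | ∀ i, x i ∈ Ioc (m i : ℝ) (m i + 1)}

theorem cub_measurable (m : ι → ℤ) : MeasurableSet (cub m) :=
  MeasurableSet.univ_pi' (fun _ => measurableSet_Ioc)

theorem cub_iUnion : (⋃ m : ι → ℤ, cub m) = univ := by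
  refine eq_univ_of_forall fun x => ?_
  rw [mem_iUnion]
  refine ⟨fun i => ⌈x i⌉ - 1, fun i => ?_⟩
  push_cast
  constructor
  · linarith [Int.ceil_lt_add_one (x i)]
  · linarith [Int.le_ceil (x i)]

theorem cub_disjoint : Pairwise (Function.onFun Disjoint (cub (ι := ι))) := by
  intro m n hmn
  rw [Function.onFun, Set.disjoint_left]
  intro x hx hy
  apply hmn
  funext i
  have h1 := hx i
  have h2 := hy i
  rw [mem_Ioc] at h1 h2
  have h3 : (m i : ℝ) < n i + 1 := lt_of_lt_of_le h1.1 h2.2
  have h4 : (n i : ℝ) < m i + 1 := lt_of_lt_of_le h2.1 h1.2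
  have h5 : m i < n i + 1 := by exact_mod_cast h3
  have h6 : n i < m i + 1 := by exact_mod_cast h4
  omega

theorem tr_preimage_cub (m : ι → ℤ) : tr m ⁻¹' cub m = cub 0 := by
  ext x
  simp only [mem_preimage, cub, mem_ofPred_eq, tr_apply, Pi.add_apply, mem_Ioc, Pi.zero_apply,
    Int.cast_zero, zero_add]
  refine forall_congr' fun i => ?_
  constructor
  · rintro ⟨h1, h2⟩
    exact ⟨by linarith, by linarith⟩
  · rintro ⟨h1, h2⟩
    exact ⟨by linarith, by linarith⟩

theorem tr_measurePreserving (m : ι → ℤ) : MeasurePreserving (tr m) volume volume :=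
  measurePreserving_add_right volume _

theorem tr_emb (m : ι → ℤ) : MeasurableEmbedding (tr m) :=
  (MeasurableEquiv.addRight (fun i => (m i : ℝ))).measurableEmbedding

theorem setIntegral_cub {E : Type*} [NormedAddCommGroup E] [NormedSpace ℝ E] (h : (ι → ℝ) → E)
    (m : ι → ℤ) : ∫ x in cub m, h x = ∫ x in cub 0, h (tr m x) := by
  rw [← tr_preimage_cub m, (tr_measurePreserving m).setIntegral_preimage_emb (tr_emb m)]

/-- the closed unit cube -/
def Kub (ι : Type*) [Fintype ι] : Compacts (ι → ℝ) :=
  ⟨Icc 0 1, isCompact_Icc⟩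

theorem cub_zero_subset : cub (0 : ι → ℤ) ⊆ (Kub ι : Set (ι → ℝ)) := by
  intro x hx
  constructor
  · intro i
    have := (hx i).1
    simp at this
    exact this.le
  · intro i
    have := (hx i).2
    simp at this
    exact this

theorem norm_le_restrict (g : C(ι → ℝ, ℂ)) (x : ι → ℝ) (hx : x ∈ (Kub ι : Set (ι → ℝ))) :
    ‖g x‖ ≤ ‖g.restrict (Kub ι)‖ := by
  exact (g.restrict (Kub ι : Set (ι → ℝ))).norm_coe_le_norm ⟨x, hx⟩

theorem volume_cub_zero_lt : volume (cub (0 : ι → ℤ)) < ⊤ :=
  lt_of_le_of_lt (measure_mono cub_zero_subset) (Kub ι).isCompact.measure_lt_top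

/-- the periodisation -/
noncomputable def period (g : C(ι → ℝ, ℂ)) : C(ι → ℝ, ℂ) := ∑' m : ι → ℤ, g.comp (tr m)


section main

variable {g : C(ι → ℝ, ℂ)}
  (hg : ∀ K : Compacts (ι → ℝ), Summable fun m : ι → ℤ => ‖(g.comp (tr m)).restrict K‖)

include hg

theorem summable_int : Summable fun m : ι → ℤ => ∫ x in cub m, ‖g x‖ := by
  refine Summable.of_nonneg_of_le (fun m => integral_nonneg fun x => norm_nonneg _) (fun m => ?_)
    ((hg (Kub ι)).mul_left (volume.real (cub (0 : ι → ℤ))))
  rw [setIntegral_cub]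
  have h1 : ‖∫ x in cub 0, ‖g (tr m x)‖‖ ≤ ‖(g.comp (tr m)).restrict (Kub ι)‖ *
      volume.real (cub (0 : ι → ℤ)) := by
    refine norm_setIntegral_le_of_norm_le_const volume_cub_zero_lt fun x hx => ?_
    rw [norm_norm]
    exact norm_le_restrict (g.comp (tr m)) x (cub_zero_subset hx)
  rw [mul_comm]
  exact (le_abs_self _).trans h1

theorem integrable_g : Integrable g := by
  rw [← integrableOn_univ, ← cub_iUnion]
  refine integrableOn_iUnion_of_summable_integral_norm (fun m => ?_) (summable_int hg)
  rw [IntegrableOn, ← (tr_measurePreserving m).map_eq]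
  rw [← IntegrableOn, (tr_emb m).integrableOn_map_iff, tr_preimage_cub]
  exact (((g.comp (tr m)).continuous.continuousOn).integrableOn_compact (Kub ι).isCompact).mono_set
    cub_zero_subset

theorem integrable_chr (k : ι → ℤ) : Integrable fun y => chr k y * g y := by
  refine (integrable_g hg).bdd_mul (c := 1) (chr_continuous k).aestronglyMeasurable ?_
  exact Eventually.of_forall fun x => (chr_norm k x).le

theorem hasSum_cub (k : ι → ℤ) :
    HasSum (fun m : ι → ℤ => ∫ x in cub 0, chr k x * g (tr m x)) (∫ y, chr k y * g y) := by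
  have h1 := hasSum_integral_iUnion (fun m => cub_measurable m) (cub_disjoint (ι := ι))
    (f := fun y => chr k y * g y) (μ := volume) (integrable_chr hg k).integrableOn
  rw [cub_iUnion, Measure.restrict_univ] at h1
  have h2 : (fun m : ι → ℤ => ∫ x in cub 0, chr k x * g (tr m x))
      = fun m => ∫ y in cub m, chr k y * g y := by
    funext m
    rw [setIntegral_cub (fun y => chr k y * g y) m]
    refine setIntegral_congr_fun (cub_measurable (0 : ι → ℤ)) fun x _ => ?_
    show chr k x * g (tr m x) = chr k (tr m x) * g (tr m x)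
    rw [tr_apply, chr_add_int]
  rw [h2]
  exact h1

theorem hasSum_period : Summable fun m : ι → ℤ => g.comp (tr m) :=
  ContinuousMap.summable_of_locally_summable_norm hg

theorem period_apply (x : ι → ℝ) :
    period g x = ∑' m : ι → ℤ, g (tr m x) := by
  unfold period
  rw [← ContinuousMap.tsum_apply (hasSum_period hg)]
  rfl

theorem period_factors : Function.FactorsThrough (period g) (tor ι) := by
  intro x y hxy
  obtain ⟨n, rfl⟩ := (tor_eq_iff x y).1 hxy
  rw [period_apply hg, period_apply hg]
  rw [← (Equiv.addRight n).tsum_eq (fun m => g (tr m x))]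
  refine tsum_congr fun m => ?_
  congr 1
  simp only [tr_apply, Equiv.coe_addRight]
  funext i
  simp only [Pi.add_apply]
  push_cast
  ring

theorem coeff_eq (k : ι → ℤ) :
    UnitAddTorus.mFourierCoeff (tor_isQuotientMap.lift (period g) (period_factors hg)) k
      = ∫ y, chr (-k) y * g y := by
  rw [UnitAddTorus.mFourierCoeff_eq_integral _ k 0]
  have h0 : {x : ι → ℝ | ∀ i, x i ∈ Ioc ((0 : ι → ℝ) i) ((0 : ι → ℝ) i + 1)} = cub 0 := by
    ext x
    simp [cub]
  rw [h0]
  have h1 : ∀ x : ι → ℝ, (tor_isQuotientMap.lift (period g) (period_factors hg)) (fun i => (x i : UnitAddCircle))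
      = ∑' m : ι → ℤ, g (tr m x) := by
    intro x
    rw [← period_apply hg]
    exact congrArg (fun h => h x) (tor_isQuotientMap.lift_comp (period g) (period_factors hg))
  have h2 : ∫ x in cub 0, UnitAddTorus.mFourier (-k) (fun i => (x i : UnitAddCircle)) •
      (tor_isQuotientMap.lift (period g) (period_factors hg)) (fun i => (x i : UnitAddCircle))
      = ∫ x in cub 0, ∑' m : ι → ℤ, chr (-k) x * g (tr m x) := by
    refine setIntegral_congr_fun (cub_measurable 0) fun x _ => ?_
    show UnitAddTorus.mFourier (-k) (fun i => (x i : UnitAddCircle)) •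
      (tor_isQuotientMap.lift (period g) (period_factors hg)) (fun i => (x i : UnitAddCircle))
      = ∑' m : ι → ℤ, chr (-k) x * g (tr m x)
    rw [h1, mFourier_eq_chr, smul_eq_mul, tsum_mul_left]
  rw [h2, ← (hasSum_cub hg (-k)).tsum_eq]
  refine (integral_tsum_of_summable_integral_norm (fun m => ?_) ?_).symm
  · refine ((((chr_continuous (-k)).mul (g.comp (tr m)).continuous).continuousOn).integrableOn_compact
      (Kub ι).isCompact).mono_set cub_zero_subset
  · refine (summable_int hg).congr fun m => ?_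
    rw [setIntegral_cub]
    refine setIntegral_congr_fun (cub_measurable 0) fun x _ => ?_
    show ‖g (tr m x)‖ = ‖chr (-k) x * g (tr m x)‖
    rw [norm_mul, chr_norm, one_mul]

/-- **Poisson summation** -/
theorem poisson (hs : Summable fun k : ι → ℤ => ∫ y, chr (-k) y * g y) (x : ι → ℝ) :
    ∑' m : ι → ℤ, g (x + fun i => (m i : ℝ)) =
      ∑' k : ι → ℤ, (∫ y, chr (-k) y * g y) * chr k x := by
  have h1 : Summable (UnitAddTorus.mFourierCoeff (tor_isQuotientMap.lift (period g) (period_factors hg))) := by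
    refine hs.congr fun k => ?_
    exact (coeff_eq hg k).symm
  have h2 := UnitAddTorus.hasSum_mFourier_series_apply_of_summable h1 (tor ι x)
  have h3 : (tor_isQuotientMap.lift (period g) (period_factors hg)) (tor ι x)
      = ∑' m : ι → ℤ, g (x + fun i => (m i : ℝ)) := by
    have h4 : (tor_isQuotientMap.lift (period g) (period_factors hg)) (tor ι x)
        = period g x :=
      congrArg (fun h => h x) (tor_isQuotientMap.lift_comp (period g) (period_factors hg))
    rw [h4, period_apply hg]
    rfl
  rw [← h3, ← h2.tsum_eq]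
  refine tsum_congr fun k => ?_
  rw [coeff_eq hg k, smul_eq_mul]
  congr 1
  exact mFourier_eq_chr k x

end main

end H29.HK
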